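import Pool.Agent.Helper68.EP.St4

/-! Module EZM of project EP: the master inequality. -/

set_option autoImplicit false

open MeasureTheory Set Filter Topology
open scoped ENNReal RealInnerProductSpace

namespace Pool.Agent.Helper39.EP

open Pool.Agent.Helper68.LM (Pl BB Bd Av HL ft fm DQ)
open Pool.Agent.Helper68.EP Pool.Agent.Helper20.RG
open Pool.Agent.Helper20.RL (RQ Rich BM Fml)

theorem Gd_sub (P : Par) (Δ : Dat) (U₀ U₁ u j : ℕ) (k : ℤ) (θ M : ℝ) (E : Set Pl) :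
    Gd P Δ U₀ U₁ u j k θ M E ⊆ E := by
  intro z hz
  exact hz.1.1.1

theorem Gd_meas (hEME : StEME) (P : Par) (Δ : Dat) (U₀ U₁ u j : ℕ) (k : ℤ) (θ M : ℝ)
    (E : Set Pl) (hE : BM E) (hθ : 0 < θ) : MeasurableSet (Gd P Δ U₀ U₁ u j k θ M E) := by
  obtain ⟨_, h2, h3, h4, _⟩ := hEME P Δ θ E hE hθ
  have he : Gd P Δ U₀ U₁ u j k θ M E = (Tc P Δ u j k θ E ∩ Cn P Δ u j k M E) \
      ⋃ u₁ ∈ Finset.Icc U₀ U₁, ⋃ q ∈ Finset.Ico (q0 P u₁) (q1 P u₁), Bad P Δ u₁ q u j k θ E := by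
    ext z
    simp only [Gd, mem_ofPred_eq, Set.mem_sdiff, mem_inter_iff, mem_iUnion, Finset.mem_Icc,
      Finset.mem_Ico, not_exists, and_assoc]
    constructor
    · rintro ⟨h1, h2, h3⟩
      exact ⟨h1, h2, fun u₁ hu q hq => h3 u₁ q hu.1 hu.2 hq.1 hq.2⟩
    · rintro ⟨h1, h2, h3⟩
      exact ⟨h1, h2, fun u₁ q a b c d => h3 u₁ ⟨a, b⟩ q ⟨c, d⟩⟩
  rw [he]
  refine ((h2 u j k).2.inter (h3 u j k M)).diff ?_
  exact Finset.measurableSet_biUnion _ (fun u₁ _ =>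
    Finset.measurableSet_biUnion _ (fun q _ => h4 u₁ q u j k))

theorem cover (hETY : StETY) (P : Par) (Δ : Dat) (U₀ U₁ u j : ℕ) (k : ℤ) (θ M : ℝ)
    (E : Set Pl) (hE : BM E) (hθ : 0 < θ) :
    volume (VM P Δ u j k θ M E) ≤ ENNReal.ofReal (4 / θ) * (volume (Gd P Δ U₀ U₁ u j k θ M E) +
      ∑ u₁ ∈ Finset.Icc U₀ U₁, ∑ q ∈ Finset.Ico (q0 P u₁) (q1 P u₁),
        volume (Bad P Δ u₁ q u j k θ E ∩ VM P Δ u j k θ M E)) := by
  refine ((hETY P Δ u j k θ E hE hθ).2 M).trans ?_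
  gcongr
  have hsub : Tc P Δ u j k θ E ∩ Cn P Δ u j k M E ∩ VM P Δ u j k θ M E ⊆
      Gd P Δ U₀ U₁ u j k θ M E ∪ ⋃ u₁ ∈ Finset.Icc U₀ U₁,
        ⋃ q ∈ Finset.Ico (q0 P u₁) (q1 P u₁),
          (Bad P Δ u₁ q u j k θ E ∩ VM P Δ u j k θ M E) := by
    rintro z ⟨⟨h1, h2⟩, h3⟩
    by_cases h : z ∈ Gd P Δ U₀ U₁ u j k θ M E
    · exact Or.inl h
    · right
      simp only [Gd, mem_ofPred_eq, not_and, not_forall, not_not] at h
      obtain ⟨u₁, q, ha, hb, hc, hd, hB⟩ := h h1 h2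
      simp only [mem_iUnion, Finset.mem_Icc, Finset.mem_Ico]
      exact ⟨u₁, ⟨ha, hb⟩, q, ⟨hc, hd⟩, hB, h3⟩
  refine (measure_mono hsub).trans ((measure_union_le _ _).trans ?_)
  gcongr
  refine (measure_biUnion_finset_le _ _).trans ?_
  gcongr
  exact measure_biUnion_finset_le _ _

theorem tq_nonneg (P : Par) (Δ : Dat) (hS : Sy P Δ) (u q : ℕ) (M s : ℝ) : 0 ≤ tq Δ u q M s := by
  unfold tq
  split_ifs
  · have := (hS.unit s (2 ^ (q - 3) - 1)).1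
    positivity
  · exact le_rfl

theorem good_part (hEME : StEME) (hEZC : StEZC) (P : Par) (C : ℝ)
    (hC : ∀ (Δ : Dat) (U₀ U₁ : ℕ) (M s : ℝ), Sy P Δ →
      (∀ u : ℕ, U₀ ≤ u → u ≤ U₁ → 5 ≤ q0 P u) →
      ∑ u ∈ Finset.Icc U₀ U₁, (2 : ℝ) ^ (-(P.p * u)) *
        ∑ q ∈ Finset.Ico (q0 P u) (q1 P u), tq Δ u q M s ≤ C * (max 1 M) ^ (1 - P.p))
    (Δ : Dat) (U₀ U₁ : ℕ) (θ M : ℝ) (E : Set Pl) (hS : Sy P Δ)
    (hOk : ∀ u : ℕ, U₀ ≤ u → u ≤ U₁ → Ok P u θ) (hE : BM E) (hθ : 0 < θ) :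
    ∑ u ∈ Finset.Icc U₀ U₁, wt P u * ∑ j ∈ Finset.range (2 ^ u), ∑' k : ℤ,
      volume (Gd P Δ U₀ U₁ u j k θ M E) ≤
      ENNReal.ofReal (C * (max 1 M) ^ (1 - P.p)) * volume E := by
  have hm : ∀ (u j : ℕ) (k : ℤ), MeasurableSet (Gd P Δ U₀ U₁ u j k θ M E) := fun u j k =>
    Gd_meas hEME P Δ U₀ U₁ u j k θ M E hE hθ
  have hmi : ∀ (u j : ℕ) (k : ℤ),
      Measurable (fun z => (Gd P Δ U₀ U₁ u j k θ M E).indicator (fun _ => (1 : ℝ≥0∞)) z) :=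
    fun u j k => measurable_const.indicator (hm u j k)
  have hmt : ∀ (u j : ℕ), Measurable (fun z => ∑' k : ℤ,
      (Gd P Δ U₀ U₁ u j k θ M E).indicator (fun _ => (1 : ℝ≥0∞)) z) :=
    fun u j => Measurable.tsum (fun k => hmi u j k)
  have hms : ∀ (u : ℕ), Measurable (fun z => ∑ j ∈ Finset.range (2 ^ u), ∑' k : ℤ,
      (Gd P Δ U₀ U₁ u j k θ M E).indicator (fun _ => (1 : ℝ≥0∞)) z) :=
    fun u => Finset.measurable_sum _ (fun j _ => hmt u j)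
  have h1 : ∀ (u j : ℕ) (k : ℤ), volume (Gd P Δ U₀ U₁ u j k θ M E) =
      ∫⁻ z in E, (Gd P Δ U₀ U₁ u j k θ M E).indicator (fun _ => (1 : ℝ≥0∞)) z := by
    intro u j k
    rw [lintegral_indicator_const (hm u j k), one_mul, Measure.restrict_apply (hm u j k),
      inter_eq_left.2 (Gd_sub P Δ U₀ U₁ u j k θ M E)]
  have h2 : ∑ u ∈ Finset.Icc U₀ U₁, wt P u * ∑ j ∈ Finset.range (2 ^ u), ∑' k : ℤ,
      volume (Gd P Δ U₀ U₁ u j k θ M E) =
      ∫⁻ z in E, ∑ u ∈ Finset.Icc U₀ U₁, wt P u * ∑ j ∈ Finset.range (2 ^ u), ∑' k : ℤ,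
        (Gd P Δ U₀ U₁ u j k θ M E).indicator (fun _ => (1 : ℝ≥0∞)) z := by
    rw [lintegral_finsetSum _ (fun u _ => (hms u).const_mul _)]
    refine Finset.sum_congr rfl (fun u _ => ?_)
    rw [lintegral_const_mul _ (hms u), lintegral_finsetSum _ (fun j _ => hmt u j)]
    congr 1
    refine Finset.sum_congr rfl (fun j _ => ?_)
    rw [lintegral_tsum (fun k => (hmi u j k).aemeasurable)]
    exact tsum_congr (fun k => h1 u j k)
  rw [h2]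
  calc ∫⁻ z in E, ∑ u ∈ Finset.Icc U₀ U₁, wt P u * ∑ j ∈ Finset.range (2 ^ u), ∑' k : ℤ,
        (Gd P Δ U₀ U₁ u j k θ M E).indicator (fun _ => (1 : ℝ≥0∞)) z
      ≤ ∫⁻ _ in E, ENNReal.ofReal (C * (max 1 M) ^ (1 - P.p)) := by
        refine lintegral_mono (fun z => ?_)
        obtain ⟨s, hs⟩ := hEZC P Δ U₀ U₁ θ M E z hS hOk hE
        calc ∑ u ∈ Finset.Icc U₀ U₁, wt P u * ∑ j ∈ Finset.range (2 ^ u), ∑' k : ℤ,
              (Gd P Δ U₀ U₁ u j k θ M E).indicator (fun _ => (1 : ℝ≥0∞)) z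
            ≤ ∑ u ∈ Finset.Icc U₀ U₁, wt P u *
                ∑ q ∈ Finset.Ico (q0 P u) (q1 P u), ENNReal.ofReal (tq Δ u q M s) := by
              refine Finset.sum_le_sum (fun u hu => ?_)
              gcongr
              exact hs u hu
          _ = ENNReal.ofReal (∑ u ∈ Finset.Icc U₀ U₁, (2 : ℝ) ^ (-(P.p * u)) *
                ∑ q ∈ Finset.Ico (q0 P u) (q1 P u), tq Δ u q M s) := by
              have hq : ∀ u, 0 ≤ ∑ q ∈ Finset.Ico (q0 P u) (q1 P u), tq Δ u q M s := fun u =>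
                Finset.sum_nonneg (fun q _ => tq_nonneg P Δ hS u q M s)
              have hp : ∀ u : ℕ, (0 : ℝ) ≤ (2 : ℝ) ^ (-(P.p * u)) := fun u => by positivity
              rw [ENNReal.ofReal_sum_of_nonneg (fun u _ => mul_nonneg (hp u) (hq u))]
              refine Finset.sum_congr rfl (fun u _ => ?_)
              rw [ENNReal.ofReal_mul (hp u),
                ENNReal.ofReal_sum_of_nonneg (fun q _ => tq_nonneg P Δ hS u q M s)]
              rfl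
          _ ≤ _ := ENNReal.ofReal_le_ofReal
              (hC Δ U₀ U₁ M s hS (fun u ha hb => (hOk u ha hb).qq.1))
    _ = ENNReal.ofReal (C * (max 1 M) ^ (1 - P.p)) * volume E := by
        rw [lintegral_const, Measure.restrict_apply_univ]

theorem hEZM (hEME : StEME) (hETY : StETY) (hEZC : StEZC) (hEZK : StEZK) : StEZM := by
  intro P
  obtain ⟨C, hC1, hC⟩ := hEZK P
  refine ⟨C, hC1, ?_⟩
  intro Δ U₀ U₁ θ M E hS hOk hE hθ
  have hgood := good_part hEME hEZC P C hC Δ U₀ U₁ θ M E hS hOk hE hθ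
  have hbad : ∑ u ∈ Finset.Icc U₀ U₁, wt P u * ∑ j ∈ Finset.range (2 ^ u), ∑' k : ℤ,
      ∑ u₁ ∈ Finset.Icc U₀ U₁, ∑ q ∈ Finset.Ico (q0 P u₁) (q1 P u₁),
        volume (Bad P Δ u₁ q u j k θ E ∩ VM P Δ u j k θ M E) =
      ∑ u₁ ∈ Finset.Icc U₀ U₁, ∑ u ∈ Finset.Icc U₀ U₁, SBu P Δ u₁ u θ M E := by
    rw [Finset.sum_comm]
    refine Finset.sum_congr rfl (fun u _ => ?_)
    unfold SBu
    rw [← Finset.mul_sum, Finset.sum_comm]
    congr 1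
    refine Finset.sum_congr rfl (fun j _ => ?_)
    exact Summable.tsum_finsetSum (fun _ _ => ENNReal.summable)
  calc ∑ u ∈ Finset.Icc U₀ U₁, SMu P Δ u θ M E
      ≤ ∑ u ∈ Finset.Icc U₀ U₁, wt P u * ∑ j ∈ Finset.range (2 ^ u), ∑' k : ℤ,
          (ENNReal.ofReal (4 / θ) * (volume (Gd P Δ U₀ U₁ u j k θ M E) +
            ∑ u₁ ∈ Finset.Icc U₀ U₁, ∑ q ∈ Finset.Ico (q0 P u₁) (q1 P u₁),
              volume (Bad P Δ u₁ q u j k θ E ∩ VM P Δ u j k θ M E))) := by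
        unfold SMu
        gcongr with u hu j hj k
        exact cover hETY P Δ U₀ U₁ u j k θ M E hE hθ
    _ = ENNReal.ofReal (4 / θ) * (∑ u ∈ Finset.Icc U₀ U₁, wt P u *
          ∑ j ∈ Finset.range (2 ^ u), ∑' k : ℤ, volume (Gd P Δ U₀ U₁ u j k θ M E) +
          ∑ u ∈ Finset.Icc U₀ U₁, wt P u * ∑ j ∈ Finset.range (2 ^ u), ∑' k : ℤ,
            ∑ u₁ ∈ Finset.Icc U₀ U₁, ∑ q ∈ Finset.Ico (q0 P u₁) (q1 P u₁),
              volume (Bad P Δ u₁ q u j k θ E ∩ VM P Δ u j k θ M E)) := by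
        rw [← Finset.sum_add_distrib, Finset.mul_sum]
        refine Finset.sum_congr rfl (fun u _ => ?_)
        rw [← mul_add, ← Finset.sum_add_distrib, mul_left_comm]
        congr 1
        rw [Finset.mul_sum]
        refine Finset.sum_congr rfl (fun j _ => ?_)
        rw [ENNReal.tsum_mul_left, ENNReal.tsum_add]
    _ ≤ _ := by
        rw [hbad]
        gcongr

end Pool.Agent.Helper39.EP
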