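import Pool.Agent.Helper68.EP.St5

/-!
# Project EP, module XT: many hits
-/

set_option autoImplicit false

open MeasureTheory Set Filter Topology
open scoped ENNReal RealInnerProductSpace

namespace Pool.Agent.Helper39.EP

open Pool.Agent.Helper68.LM (Pl BB Bd Av HL ft fm DQ)
open Pool.Agent.Helper68.EP Pool.Agent.Helper20.RG
open Pool.Agent.Helper20.RL (RQ Rich BM Fml)

/-- Chebyshev for a sum of indicators (the sets need not be measurable) -/
theorem xt_cheb {ι : Type*} (I : Finset ι) (A : ι → Set Pl) (m : ℝ) (hm : 0 < m) (T : Set Pl)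
    (hT : ∀ x ∈ T, ∃ J : Finset ι, J ⊆ I ∧ (∀ h ∈ J, x ∈ A h) ∧ m ≤ (J.card : ℝ)) :
    volume T ≤ ENNReal.ofReal (1 / m) * ∑ h ∈ I, volume (A h) := by
  classical
  set B : ι → Set Pl := fun h => toMeasurable volume (A h) with hB
  have hBm : ∀ h, MeasurableSet (B h) := fun h => measurableSet_toMeasurable _ _
  have hBv : ∀ h, volume (B h) = volume (A h) := fun h => measure_toMeasurable _
  have hBs : ∀ h, A h ⊆ B h := fun h => subset_toMeasurable _ _
  set f : Pl → ℝ≥0∞ := fun x => ∑ h ∈ I, (B h).indicator (fun _ => (1 : ℝ≥0∞)) x with hf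
  have hfm : Measurable f := by
    refine Finset.measurable_fun_sum I (fun h _ => ?_)
    exact measurable_const.indicator (hBm h)
  have hfi : ∫⁻ x, f x = ∑ h ∈ I, volume (A h) := by
    rw [hf, lintegral_finsetSum I (fun h _ => measurable_const.indicator (hBm h))]
    refine Finset.sum_congr rfl (fun h _ => ?_)
    rw [lintegral_indicator (hBm h), lintegral_const, one_mul, Measure.restrict_apply_univ, hBv h]
  have hm0 : ENNReal.ofReal m ≠ 0 := by
    rw [Ne, ENNReal.ofReal_eq_zero, not_le]; exact hm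
  have hsub : T ⊆ {x | ENNReal.ofReal m ≤ f x} := by
    intro x hx
    obtain ⟨J, hJI, hJA, hJm⟩ := hT x hx
    rw [mem_ofPred_eq]
    have e1 : (∑ h ∈ J, (B h).indicator (fun _ => (1 : ℝ≥0∞)) x) = (J.card : ℝ≥0∞) := by
      have : ∀ h ∈ J, (B h).indicator (fun _ => (1 : ℝ≥0∞)) x = 1 := by
        intro h hh
        exact indicator_of_mem (hBs h (hJA h hh)) _
      rw [Finset.sum_congr rfl this]
      simp
    have e2 : (∑ h ∈ J, (B h).indicator (fun _ => (1 : ℝ≥0∞)) x) ≤ f x := by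
      rw [hf]
      exact Finset.sum_le_sum_of_subset hJI
    refine le_trans ?_ e2
    rw [e1]
    calc ENNReal.ofReal m ≤ ENNReal.ofReal (J.card : ℝ) := ENNReal.ofReal_le_ofReal hJm
      _ = (J.card : ℝ≥0∞) := ENNReal.ofReal_natCast _
  calc volume T ≤ volume {x | ENNReal.ofReal m ≤ f x} := measure_mono hsub
    _ ≤ (∫⁻ x, f x) / ENNReal.ofReal m :=
        meas_ge_le_lintegral_div hfm.aemeasurable hm0 ENNReal.ofReal_ne_top
    _ = ENNReal.ofReal (1 / m) * ∑ h ∈ I, volume (A h) := by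
        rw [hfi, ENNReal.div_eq_inv_mul, one_div, ENNReal.ofReal_inv_of_pos hm]

theorem xt_g_pos (P : Par) : 0 < P.g := by
  unfold Par.g
  have := P.hs
  linarith

theorem hXT (hEVF : StEVF) (hEN1 : StEN1) (hXEN : StXEN) (hXL : StXL) (hXVM : StXVM)
    (hXB2 : StXB2) (hXGA : StXGA) (hXC : StXC) : StXT := by
  classical
  intro P
  obtain ⟨u1, hu1, h1⟩ := hEN1 P
  obtain ⟨u2, hu2, h2⟩ := hXB2 P
  refine ⟨max u1 u2, le_max_of_le_left hu1, ?_⟩
  intro Δ ct U₀ U₁ k θ n M L E hSy hU hθ hθ1 hn hM hE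
  have hg := xt_g_pos P
  have hθ0 : 0 < θ := lt_of_lt_of_le (by positivity) hθ
  have hU1 : u1 ≤ U₀ := le_trans (le_max_left _ _) hU
  have hU2 : u2 ≤ U₀ := le_trans (le_max_right _ _) hU
  have hOk : ∀ u, U₀ ≤ u → Ok P u θ := by
    intro u hu
    refine (h1 u θ (hU1.trans hu) (le_trans ?_ hθ) hθ1).1
    refine Real.rpow_le_rpow_of_exponent_le (by norm_num) ?_
    have : (U₀ : ℝ) ≤ u := by exact_mod_cast hu
    have h0 : (0 : ℝ) ≤ U₀ := Nat.cast_nonneg _
    have e : P.g * U₀ ≤ P.g * u := mul_le_mul_of_nonneg_left this hg.le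
    have e' : 0 ≤ P.g * U₀ := mul_nonneg hg.le h0
    linarith
  -- the index set
  set I : Finset (ℕ × ℕ) :=
    ((Finset.Icc U₀ U₁) ×ˢ (Finset.range (2 ^ U₁))).filter (fun h => h.2 < 2 ^ h.1) with hI
  have hIm : ∀ h : ℕ × ℕ, h ∈ I ↔ h.1 ∈ Finset.Icc U₀ U₁ ∧ h.2 ∈ Finset.range (2 ^ h.1) := by
    intro h
    rw [hI, Finset.mem_filter, Finset.mem_product]
    constructor
    · rintro ⟨⟨a, _⟩, c⟩
      exact ⟨a, Finset.mem_range.2 c⟩
    · rintro ⟨a, c⟩
      have c' := Finset.mem_range.1 c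
      refine ⟨⟨a, ?_⟩, c'⟩
      refine Finset.mem_range.2 (lt_of_lt_of_le c' ?_)
      exact Nat.pow_le_pow_right (by norm_num) (Finset.mem_Icc.1 a).2
  -- the sets
  set AX : ℕ × ℕ → Set Pl := fun h => Xv P Δ ct h.1 h.2 k θ (E h.1) (Vc P Δ h.1 h.2 k θ (E h.1)) with hAX
  set AB : ℕ × ℕ → Set Pl := fun h => Bx P Δ ct U₁ h.1 h.2 k θ E with hAB
  set AM : ℕ × ℕ → Set Pl := fun h => Xv P Δ ct h.1 h.2 k θ (E h.1) (VM P Δ h.1 h.2 k θ M (E h.1))
    with hAM
  -- the set of hits as a finset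
  have hHt : ∀ x, Ht P Δ ct U₀ U₁ k θ E x = ((I.filter (fun h => x ∈ AX h) : Finset (ℕ × ℕ)) : Set (ℕ × ℕ)) := by
    intro x
    ext h
    rw [Finset.mem_coe, Finset.mem_filter, hIm, Finset.mem_Icc, Finset.mem_range]
    unfold Ht
    rw [mem_ofPred_eq]
    constructor
    · rintro ⟨a, b, c, d⟩
      exact ⟨⟨⟨a, b⟩, c⟩, d⟩
    · rintro ⟨⟨⟨a, b⟩, c⟩, d⟩
      exact ⟨a, b, c, d⟩
  set T : Set Pl := {x | n ≤ ((Ht P Δ ct U₀ U₁ k θ E x).ncard : ℝ)} with hT
  set T1 : Set Pl := {x | n / 2 ≤ ((I.filter (fun h => x ∈ AB h)).card : ℝ)} with hT1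
  set T2 : Set Pl := {x | n / 4 ≤ ((I.filter (fun h => x ∈ AM h)).card : ℝ)} with hT2
  have hsub : T ⊆ T1 ∪ T2 := by
    intro x hx
    rw [hT, mem_ofPred_eq, hHt x, Set.ncard_coe_finset] at hx
    by_cases hb : n / 2 ≤ ((I.filter (fun h => x ∈ AB h)).card : ℝ)
    · exact Or.inl hb
    right
    rw [hT2, mem_ofPred_eq]
    push Not at hb
    set G : Finset (ℕ × ℕ) := I.filter (fun h => x ∈ AX h ∧ x ∉ AB h) with hG
    have hGc : n / 2 ≤ (G.card : ℝ) := by
      have hle : (I.filter (fun h => x ∈ AX h)).card ≤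
          (I.filter (fun h => x ∈ AB h)).card + G.card := by
        have : I.filter (fun h => x ∈ AX h) ⊆ I.filter (fun h => x ∈ AB h) ∪ G := by
          intro h hh
          have hh' := Finset.mem_filter.1 hh
          refine Finset.mem_union.2 ?_
          by_cases hxb : x ∈ AB h
          · exact Or.inl (Finset.mem_filter.2 ⟨hh'.1, hxb⟩)
          · exact Or.inr (Finset.mem_filter.2 ⟨hh'.1, hh'.2, hxb⟩)
        exact (Finset.card_le_card this).trans (Finset.card_union_le _ _)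
      have hle' : ((I.filter (fun h => x ∈ AX h)).card : ℝ) ≤
          ((I.filter (fun h => x ∈ AB h)).card : ℝ) + (G.card : ℝ) := by exact_mod_cast hle
      linarith
    have hGm : ∀ h ∈ G, U₀ ≤ h.1 ∧ h.1 ≤ U₁ ∧ h.2 < 2 ^ h.1 ∧ x ∈ AX h ∧ x ∉ AB h := by
      intro h hh
      rw [hG, Finset.mem_filter, hIm, Finset.mem_Icc, Finset.mem_range] at hh
      exact ⟨hh.1.1.1, hh.1.1.2, hh.1.2, hh.2.1, hh.2.2⟩
    -- the witnesses
    have hw : ∀ h : ℕ × ℕ, ∃ (y : Pl) (q : ℕ), h ∈ G →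
        y ∈ Vc P Δ h.1 h.2 k θ (E h.1) ∧ Nr P Δ ct h.1 h.2 k θ (E h.1) x y ∧
        q0 P h.1 ≤ q ∧ q < q1 P h.1 ∧ y ∈ Lc P Δ h.1 h.2 k θ (E h.1) q := by
      intro h
      by_cases hh : h ∈ G
      · obtain ⟨a, b, c, d, e⟩ := hGm h hh
        obtain ⟨y, hy, hyn⟩ := d
        obtain ⟨q, hq0, hq1, hq⟩ := (hXL P Δ h.1 h.2 k θ (E h.1) hSy (hOk _ a) c (hE _)).1 y hy
        exact ⟨y, q, fun _ => ⟨hy, hyn, hq0, hq1, hq⟩⟩
      · exact ⟨0, 0, fun h' => absurd h' hh⟩
    choose y q hyq using hw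
    set γ : ℕ × ℕ → ℝ := fun h => (2 : ℝ) ^ h.1 * Δ.ell (Δ.sl h.1 h.2) (2 ^ (q h - 3)) with hγ
    have hγ0 : ∀ h, 0 ≤ γ h := by
      intro h
      exact mul_nonneg (by positivity) (hSy.unit _ _).1
    have hkey : ∀ h ∈ G, M ≤ γ h → x ∈ AM h := by
      intro h hh hMγ
      obtain ⟨hy, hyn, hq0, hq1, hq⟩ := hyq h hh
      have hv := hXVM P Δ h.1 h.2 k θ M (E h.1) (q h) (y h) hSy (hE _) hq0 hq1.le hq hMγ
      exact ⟨y h, hv, hyn⟩
    have hcount : n / 4 ≤ ((G.filter (fun h => M ≤ γ h)).card : ℝ) := by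
      rcases hM with hM0 | ⟨hM0, hML, hMn⟩
      · have : G.filter (fun h => M ≤ γ h) = G := by
          rw [Finset.filter_eq_self]
          intro h _
          rw [hM0]; exact hγ0 h
        rw [this]
        linarith
      · refine hXC G γ M n L hM0.le hML hMn hGc ?_ ?_
        · intro h hh h' hh' hlt
          obtain ⟨a, b, c, d, e⟩ := hGm h hh
          obtain ⟨a', b', c', d', e'⟩ := hGm h' hh'
          obtain ⟨hy, hyn, hq0, hq1, hq⟩ := hyq h hh
          exact (hXGA P Δ ct U₁ h.1 h.2 (q h) k θ E x (y h) hSy (hOk _ a) hE b c hq0 hq1 hq hyn).1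
            h'.1 h'.2 (by omega) hlt c' d' e'
        · intro h hh
          obtain ⟨a, b, c, d, e⟩ := hGm h hh
          obtain ⟨hy, hyn, hq0, hq1, hq⟩ := hyq h hh
          have h3 := (hXGA P Δ ct U₁ h.1 h.2 (q h) k θ E x (y h) hSy (hOk _ a) hE b c hq0 hq1 hq hyn).2
            ((G.filter (fun h' => h'.1 = h.1)).image Prod.snd) ?_
          · have hc : ((G.filter (fun h' => h'.1 = h.1)).image Prod.snd).card =
                (G.filter (fun h' => h'.1 = h.1)).card := by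
              refine Finset.card_image_of_injOn ?_
              intro p hp r hr hpr
              have hp' := (Finset.mem_filter.1 (Finset.mem_coe.1 hp)).2
              have hr' := (Finset.mem_filter.1 (Finset.mem_coe.1 hr)).2
              exact Prod.ext (hp'.trans hr'.symm) hpr
            rw [hc] at h3
            exact h3
          · intro j hj
            rw [Finset.mem_image] at hj
            obtain ⟨h', hh', hj⟩ := hj
            rw [Finset.mem_filter] at hh'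
            obtain ⟨hh', heq⟩ := hh'
            obtain ⟨a', b', c', d', e'⟩ := hGm h' hh'
            subst hj
            rw [← heq]
            exact ⟨c', d', e'⟩
    refine hcount.trans ?_
    have : G.filter (fun h => M ≤ γ h) ⊆ I.filter (fun h => x ∈ AM h) := by
      intro h hh
      rw [Finset.mem_filter] at hh
      rw [Finset.mem_filter]
      refine ⟨?_, hkey h hh.1 hh.2⟩
      have := hh.1
      rw [hG, Finset.mem_filter] at this
      exact this.1
    exact_mod_cast Finset.card_le_card this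
  -- the two Chebyshev bounds
  have c1 : volume T1 ≤ ENNReal.ofReal (1 / (n / 2)) * ∑ h ∈ I, volume (AB h) := by
    refine xt_cheb I AB (n / 2) (by positivity) T1 (fun x hx => ?_)
    exact ⟨I.filter (fun h => x ∈ AB h), Finset.filter_subset _ _,
      fun h hh => (Finset.mem_filter.1 hh).2, hx⟩
  have c2 : volume T2 ≤ ENNReal.ofReal (1 / (n / 4)) * ∑ h ∈ I, volume (AM h) := by
    refine xt_cheb I AM (n / 4) (by positivity) T2 (fun x hx => ?_)
    exact ⟨I.filter (fun h => x ∈ AM h), Finset.filter_subset _ _,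
      fun h hh => (Finset.mem_filter.1 hh).2, hx⟩
  have d1 : ∀ h ∈ I, volume (AB h) ≤
      ENNReal.ofReal ((2 : ℝ) ^ (-(P.g * h.1))) * volume (Vc P Δ h.1 h.2 k θ (E h.1)) := by
    intro h hh
    rw [hIm, Finset.mem_Icc, Finset.mem_range] at hh
    exact h2 Δ ct U₀ U₁ h.1 h.2 k θ E hSy hU2 hh.1.1 hh.1.2 hθ hθ1 hh.2 hE
  have d2 : ∀ h ∈ I, volume (AM h) ≤ 35 * volume (VM P Δ h.1 h.2 k θ M (E h.1)) := by
    intro h hh
    have hs := (hEVF P Δ h.1 h.2 k θ (E h.1) (hE _) hθ0).2.2.1 M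
    exact (hXEN P Δ ct h.1 h.2 k θ (E h.1) _ (hE _) hθ0 hs).2
  have hS1 : ∑ h ∈ I, volume (AB h) ≤ ∑ h ∈ I,
      ENNReal.ofReal ((2 : ℝ) ^ (-(P.g * h.1))) * volume (Vc P Δ h.1 h.2 k θ (E h.1)) :=
    Finset.sum_le_sum d1
  have hS2 : ∑ h ∈ I, volume (AM h) ≤ 35 * ∑ h ∈ I, volume (VM P Δ h.1 h.2 k θ M (E h.1)) := by
    rw [Finset.mul_sum]
    exact Finset.sum_le_sum d2
  have k1 : ENNReal.ofReal (1 / (n / 2)) ≤ ENNReal.ofReal (140 / n) := by
    refine ENNReal.ofReal_le_ofReal ?_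
    rw [one_div_div]
    exact div_le_div_of_nonneg_right (by norm_num) hn.le
  have k2 : ENNReal.ofReal (1 / (n / 4)) * 35 = ENNReal.ofReal (140 / n) := by
    have : (35 : ℝ≥0∞) = ENNReal.ofReal 35 := by norm_num
    rw [this, ← ENNReal.ofReal_mul (by positivity)]
    congr 1
    field_simp
    norm_num
  have hsum : ∑ u ∈ Finset.Icc U₀ U₁, ∑ j ∈ Finset.range (2 ^ u),
        (volume (VM P Δ u j k θ M (E u)) +
          ENNReal.ofReal ((2 : ℝ) ^ (-(P.g * u))) * volume (Vc P Δ u j k θ (E u))) =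
      ∑ h ∈ I, (volume (VM P Δ h.1 h.2 k θ M (E h.1)) +
          ENNReal.ofReal ((2 : ℝ) ^ (-(P.g * h.1))) * volume (Vc P Δ h.1 h.2 k θ (E h.1))) := by
    rw [Finset.sum_finset_product I (Finset.Icc U₀ U₁) (fun u => Finset.range (2 ^ u)) hIm]
  rw [hsum, Finset.sum_add_distrib, mul_add]
  calc volume T ≤ volume (T1 ∪ T2) := measure_mono hsub
    _ ≤ volume T1 + volume T2 := measure_union_le _ _
    _ ≤ ENNReal.ofReal (140 / n) * (∑ h ∈ I,
          ENNReal.ofReal ((2 : ℝ) ^ (-(P.g * h.1))) * volume (Vc P Δ h.1 h.2 k θ (E h.1))) +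
        ENNReal.ofReal (140 / n) * ∑ h ∈ I, volume (VM P Δ h.1 h.2 k θ M (E h.1)) := by
        refine add_le_add ?_ ?_
        · exact c1.trans (mul_le_mul' k1 hS1)
        · refine c2.trans ?_
          calc ENNReal.ofReal (1 / (n / 4)) * ∑ h ∈ I, volume (AM h)
              ≤ ENNReal.ofReal (1 / (n / 4)) * (35 * ∑ h ∈ I, volume (VM P Δ h.1 h.2 k θ M (E h.1))) :=
                mul_le_mul' le_rfl hS2
            _ = _ := by rw [← mul_assoc, k2]
    _ = _ := add_comm _ _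

end Pool.Agent.Helper39.EP
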